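import Pool.Agent.H85.Tau

set_option autoImplicit false

namespace Pool.Agent.Results.MP_b17faa_gt.OmegaTau

open Pool.Agent.H85.TauDefs

/-- For sets of reals `S1(Omega, Tau)` implies `S1(Omega, Gamma)`. -/
theorem result (X : Set ℝ) (hX : S1 (Omega X) (Tau X)) : S1 (Omega X) (Gamma X) :=
  Pool.Agent.H85.Tau.S1OG_of_S1OT hX

end Pool.Agent.Results.MP_b17faa_gt.OmegaTau
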