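import Pool.Agent.H83.Tw5

set_option autoImplicit false

namespace Pool.Agent.Results.MP_b17faa_gt.SfinNotHurewicz

open Cardinal Pool.Agent.H85.TauDefs Pool.Agent.H83.TwDefs

/-- Under CH `Sfin(Omega, Tau)` does not imply `Ufin(Gamma, Gamma)`. -/
theorem result (hCH : (𝔠 : Cardinal.{0}) = ℵ₁) :
    ∃ X : Set ℝ, Sfin (Omega X) (Tau X) ∧ ¬ Ufin (Gamma X) (Gamma X) := by
  obtain ⟨X, -, h1, -, h3, -⟩ := Pool.Agent.H83.Tw.main hCH
  exact ⟨X, h1, h3⟩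

end Pool.Agent.Results.MP_b17faa_gt.SfinNotHurewicz
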